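import Pool.Agent.Helper76_LAP.MOD

/-!
# LAP, modules INI and LOD
-/

set_option autoImplicit false

namespace Pool.Agent.LAP.H76

open scoped Classical

theorem lod : LODStmt := by
  intro k L q D δ η r T Rr ζ P P' _ α β _ _ E R X Y X' Y' F smp M hst hsnk hlab hM hX hY c
  have hRE : R ⊆ E := (hst.cl c).sub
  have e6 : 6 / (L : ℝ) ^ 4 = 1 / (L : ℝ) ^ 4 + 5 / (L : ℝ) ^ 4 := by ring
  constructor
  · intro x
    have h : out R x ∩ Y c ⊆ (out (R \ allS smp) x ∩ ran (M c)) ∪
        ((out (R ∩ allS smp) x ∩ Y c) ∪ (out E x ∩ Y' c)) := by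
      intro y hy
      simp only [Finset.mem_inter, Finset.mem_union, mem_out, Finset.mem_sdiff] at hy ⊢
      by_cases h1 : (x, y) ∈ allS smp
      · exact Or.inr (Or.inl ⟨⟨hy.1, h1⟩, hy.2⟩)
      · by_cases h2 : y ∈ Y' c
        · exact Or.inr (Or.inr ⟨hRE hy.1, h2⟩)
        · exact Or.inl ⟨⟨hy.1, h1⟩, hY c (Finset.mem_sdiff.mpr ⟨hy.2, h2⟩)⟩
    have h1 := (Finset.card_le_card h).trans ((Finset.card_union_le _ _).trans
      (Nat.add_le_add_left (Finset.card_union_le _ _) _))
    have h2 : ((out R x ∩ Y c).card : ℝ) ≤ (out (R \ allS smp) x ∩ ran (M c)).card +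
        ((out (R ∩ allS smp) x ∩ Y c).card + (out E x ∩ Y' c).card) := by exact_mod_cast h1
    have h3 := (hst.cl c).ol x
    have h4 := (hlab.m3 c).1 x
    have h5 := (hsnk.k4 c).1 x
    rw [e6]
    linarith
  · intro y
    have h : inn R y ∩ X c ⊆ (inn (R \ allS smp) y ∩ dom (M c)) ∪
        ((inn (R ∩ allS smp) y ∩ X c) ∪ (inn E y ∩ X' c)) := by
      intro x hx
      simp only [Finset.mem_inter, Finset.mem_union, mem_inn, Finset.mem_sdiff] at hx ⊢
      by_cases h1 : (x, y) ∈ allS smp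
      · exact Or.inr (Or.inl ⟨⟨hx.1, h1⟩, hx.2⟩)
      · by_cases h2 : x ∈ X' c
        · exact Or.inr (Or.inr ⟨hRE hx.1, h2⟩)
        · exact Or.inl ⟨⟨hx.1, h1⟩, hX c (Finset.mem_sdiff.mpr ⟨hx.2, h2⟩)⟩
    have h1 := (Finset.card_le_card h).trans ((Finset.card_union_le _ _).trans
      (Nat.add_le_add_left (Finset.card_union_le _ _) _))
    have h2 : ((inn R y ∩ X c).card : ℝ) ≤ (inn (R \ allS smp) y ∩ dom (M c)).card +
        ((inn (R ∩ allS smp) y ∩ X c).card + (inn E y ∩ X' c).card) := by exact_mod_cast h1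
    have h3 := (hst.cl c).il y
    have h4 := (hlab.m3 c).2 y
    have h5 := (hsnk.k4 c).2 y
    rw [e6]
    linarith

theorem ini (h1 : MODStmt) : INIStmt := by
  intro V _ E k L q hL hreg
  have hD : pD k 0 = k := by unfold pD; simp
  have hd : pd L 0 = 0 := by unfold pd; simp
  have he : pe L 0 = 0 := by unfold pe; simp
  have hr : pR L 0 = 0 := by unfold pR; simp
  have hT : pT L q 0 = q + 2 * (L : ℝ) ^ 3 := by unfold pT; simp
  have hQ : pQ L q 0 = q + 4 * (L : ℝ) ^ 3 := by unfold pQ; simp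
  have hL0 : (0 : ℝ) ≤ L := Nat.cast_nonneg L
  have h2L : (q : ℝ) ≤ q + 2 * (L : ℝ) ^ 3 := by
    have := pow_nonneg hL0 3
    linarith
  have h4L : (q : ℝ) ≤ q + 4 * (L : ℝ) ^ 3 := by
    have := pow_nonneg hL0 3
    linarith
  have hcard : ∀ (p : Fin q → Prop) [DecidablePred p],
      (((Finset.univ.filter p).card : ℕ) : ℝ) ≤ q := by
    intro p _
    have := Finset.card_filter_le (Finset.univ : Finset (Fin q)) p
    rw [Finset.card_univ, Fintype.card_fin] at this
    exact_mod_cast this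
  have ho : ∀ x, ((out E x ∩ (Finset.univ : Finset V)).card : ℝ) = k := fun x => by
    rw [Finset.inter_univ, hreg.1 x]
  have hi : ∀ y, ((inn E y ∩ (Finset.univ : Finset V)).card : ℝ) = k := fun y => by
    rw [Finset.inter_univ, hreg.2 y]
  have hds : ∀ A B, dsc E Finset.univ Finset.univ (k : ℝ) A B = 0 := by
    intro A B
    rw [h1 V V E Finset.univ Finset.univ (k : ℝ) A B]
    simp only [ho, hi, sub_self, Finset.sum_const_zero]
  have hst : St E E L q (k : ℝ) 0 0 0 (q + 2 * (L : ℝ) ^ 3) (q + 4 * (L : ℝ) ^ 3)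
      (fun _ => Finset.univ) (fun _ => Finset.univ) := by
    refine ⟨fun c => ⟨Finset.Subset.refl E, fun x => ?_, fun x => ?_, fun y => ?_, fun y => ?_⟩,
      fun x => ?_, fun y => ?_, fun a _ => ?_, fun c Q _ => ?_⟩
    · rw [ho]; linarith
    · rw [ho]; linarith
    · rw [hi]; linarith
    · rw [hi]; linarith
    · exact (hcard _).trans h2L
    · exact (hcard _).trans h2L
    · exact (hcard _).trans h4L
    · unfold HQ
      rw [hds]
      have hnn : 0 ≤ 14 * (L : ℝ) ^ 11 * Q.card * k := by positivity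
      constructor
      · linarith only [hnn]
      · linarith only [hnn]
  refine ⟨?_, fun c => Finset.empty_subset _, fun c => ⟨?_, ?_⟩, fun c v hv => ?_,
    fun c d _ => Finset.disjoint_empty_left _, fun c => Finset.disjoint_empty_left _,
    fun c => ?_, fun c => ?_, fun v => ?_, fun v => ?_⟩
  · rw [he, hr, hd, hD, hT, hQ]
    exact hst
  · intro x y y' h
    exact absurd h (Finset.notMem_empty _)
  · intro x y y' h
    exact absurd h (Finset.notMem_empty _)
  · obtain ⟨b, hb, -⟩ := Relation.TransGen.head'_iff.mp hv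
    exact absurd hb (Finset.notMem_empty _)
  · unfold dom
    simp
  · unfold ran
    simp
  · simp
  · simp

end Pool.Agent.LAP.H76
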