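import Pool.Agent.Helper23_LAP.Stmts

/-!
# LAP, modules MOD and SIZ
-/

set_option autoImplicit false

namespace Pool.Agent.LAP.H76

open scoped Classical

variable {α β : Type}

theorem mem_out [Fintype β] (R : Finset (α × β)) (x : α) (y : β) : y ∈ out R x ↔ (x, y) ∈ R := by
  unfold out; simp

theorem mem_inn [Fintype α] (R : Finset (α × β)) (x : α) (y : β) : x ∈ inn R y ↔ (x, y) ∈ R := by
  unfold inn; simp

theorem cnt_out [Fintype β] (R : Finset (α × β)) (S : Finset α) (T : Finset β) :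
    (R.filter fun a => a.1 ∈ S ∧ a.2 ∈ T).card = ∑ x ∈ S, (out R x ∩ T).card := by
  rw [Finset.card_eq_sum_card_fiberwise (f := Prod.fst) (t := S) (fun a ha => by
    simp only [Finset.coe_filter, Set.mem_ofPred_eq] at ha
    exact ha.2.1)]
  refine Finset.sum_congr rfl fun x hx => ?_
  refine Finset.card_nbij' (fun a => a.2) (fun y => (x, y)) ?_ ?_ ?_ ?_
  · rintro ⟨u, v⟩ h
    simp only [Finset.coe_filter, Finset.mem_filter, Set.mem_ofPred_eq] at h
    obtain ⟨⟨h1, h2, h3⟩, rfl⟩ := h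
    simp only [Finset.coe_inter, Set.mem_inter_iff, Finset.mem_coe, mem_out]
    exact ⟨h1, h3⟩
  · intro y h
    simp only [Finset.coe_inter, Set.mem_inter_iff, Finset.mem_coe, mem_out] at h
    simp only [Finset.coe_filter, Finset.mem_filter, Set.mem_ofPred_eq]
    exact ⟨⟨h.1, hx, h.2⟩, trivial⟩
  · rintro ⟨u, v⟩ h
    simp only [Finset.coe_filter, Finset.mem_filter, Set.mem_ofPred_eq] at h
    obtain ⟨-, rfl⟩ := h
    rfl
  · intro y _
    rfl

theorem cnt_inn [Fintype α] (R : Finset (α × β)) (S : Finset α) (T : Finset β) :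
    (R.filter fun a => a.1 ∈ S ∧ a.2 ∈ T).card = ∑ y ∈ T, (inn R y ∩ S).card := by
  rw [Finset.card_eq_sum_card_fiberwise (f := Prod.snd) (t := T) (fun a ha => by
    simp only [Finset.coe_filter, Set.mem_ofPred_eq] at ha
    exact ha.2.2)]
  refine Finset.sum_congr rfl fun y hy => ?_
  refine Finset.card_nbij' (fun a => a.1) (fun x => (x, y)) ?_ ?_ ?_ ?_
  · rintro ⟨u, v⟩ h
    simp only [Finset.coe_filter, Finset.mem_filter, Set.mem_ofPred_eq] at h
    obtain ⟨⟨h1, h2, h3⟩, rfl⟩ := h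
    simp only [Finset.coe_inter, Set.mem_inter_iff, Finset.mem_coe, mem_inn]
    exact ⟨h1, h2⟩
  · intro x h
    simp only [Finset.coe_inter, Set.mem_inter_iff, Finset.mem_coe, mem_inn] at h
    simp only [Finset.coe_filter, Finset.mem_filter, Set.mem_ofPred_eq]
    exact ⟨⟨h.1, h.2, hy⟩, trivial⟩
  · rintro ⟨u, v⟩ h
    simp only [Finset.coe_filter, Finset.mem_filter, Set.mem_ofPred_eq] at h
    obtain ⟨-, rfl⟩ := h
    rfl
  · intro y _
    rfl

theorem modS : MODStmt := by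
  intro α β _ _ R X Y D A B
  have e1 : (R.filter fun a => a.1 ∈ X ∧ a.2 ∈ Y ∩ B).card = (ain R X Y A B).card +
      (R.filter fun a => a.1 ∈ X ∩ A ∧ a.2 ∈ Y ∩ B).card := by
    unfold ain
    rw [← Finset.card_union_of_disjoint]
    · congr 1
      ext a
      simp only [Finset.mem_filter, Finset.mem_inter, Finset.mem_union]
      tauto
    · rw [Finset.disjoint_filter]
      intro a _ h h'
      simp only [Finset.mem_inter] at h'
      exact h.1.2 h'.1.2
  have e2 : (R.filter fun a => a.1 ∈ X ∩ A ∧ a.2 ∈ Y).card = (aou R X Y A B).card +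
      (R.filter fun a => a.1 ∈ X ∩ A ∧ a.2 ∈ Y ∩ B).card := by
    unfold aou
    rw [← Finset.card_union_of_disjoint]
    · congr 1
      ext a
      simp only [Finset.mem_filter, Finset.mem_inter, Finset.mem_union]
      tauto
    · rw [Finset.disjoint_filter]
      intro a _ h h'
      simp only [Finset.mem_inter] at h'
      exact h.2.2 h'.2.2
  rw [cnt_inn] at e1
  rw [cnt_out] at e2
  have e1' : (∑ y ∈ Y ∩ B, ((inn R y ∩ X).card : ℝ)) = (ain R X Y A B).card +
      (R.filter fun a => a.1 ∈ X ∩ A ∧ a.2 ∈ Y ∩ B).card := by exact_mod_cast e1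
  have e2' : (∑ x ∈ X ∩ A, ((out R x ∩ Y).card : ℝ)) = (aou R X Y A B).card +
      (R.filter fun a => a.1 ∈ X ∩ A ∧ a.2 ∈ Y ∩ B).card := by exact_mod_cast e2
  rw [Finset.sum_sub_distrib, Finset.sum_sub_distrib, e1', e2', Finset.sum_const,
    Finset.sum_const]
  unfold dsc
  simp only [nsmul_eq_mul]
  ring

theorem lp_rp [Fintype α] [Fintype β] (Q : Finset (α ⊕ β)) :
    (lp Q).card + (rp Q).card = Q.card := by
  have h1 : ((lp Q).image Sum.inl : Finset (α ⊕ β)).card = (lp Q).card :=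
    Finset.card_image_of_injective _ Sum.inl_injective
  have h2 : ((rp Q).image Sum.inr : Finset (α ⊕ β)).card = (rp Q).card :=
    Finset.card_image_of_injective _ Sum.inr_injective
  rw [← h1, ← h2, ← Finset.card_union_of_disjoint]
  · congr 1
    ext w
    rcases w with x | y
    · simp [lp, rp]
    · simp [lp, rp]
  · rw [Finset.disjoint_left]
    intro w h h'
    simp only [Finset.mem_image] at h h'
    obtain ⟨x, -, rfl⟩ := h
    obtain ⟨y, -, h⟩ := h'
    exact absurd h (by simp)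

theorem siz : SIZStmt := by
  intro α β _ _ E R X Y L D δ Q hD hδ hcl
  have a1 : (X ∩ clA E (L ^ 2) Q).card * L ^ 2 ≤ ∑ y ∈ rp Q, (inn E y ∩ X).card := by
    rw [← cnt_inn, cnt_out, ← smul_eq_mul]
    have h : ∀ x ∈ X ∩ clA E (L ^ 2) Q, L ^ 2 ≤ (out E x ∩ rp Q).card := by
      intro x hx
      simp only [Finset.mem_inter, clA, clO, Finset.mem_filter] at hx
      exact hx.2.2
    exact (Finset.card_nsmul_le_sum _ _ _ h).trans
      (Finset.sum_le_sum_of_subset Finset.inter_subset_left)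
  have a2 : (Y ∩ clB E (L ^ 2) Q).card * L ^ 2 ≤ ∑ x ∈ lp Q, (out E x ∩ Y).card := by
    rw [← cnt_out, cnt_inn, ← smul_eq_mul]
    have h : ∀ y ∈ Y ∩ clB E (L ^ 2) Q, L ^ 2 ≤ (inn E y ∩ lp Q).card := by
      intro y hy
      simp only [Finset.mem_inter, clB, clI, Finset.mem_filter] at hy
      exact hy.2.2
    exact (Finset.card_nsmul_le_sum _ _ _ h).trans
      (Finset.sum_le_sum_of_subset Finset.inter_subset_left)
  have hb : (1 + δ) * D ≤ 2 * D := mul_le_mul_of_nonneg_right (by linarith) hD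
  have b1 : (∑ y ∈ rp Q, ((inn E y ∩ X).card : ℝ)) ≤ (rp Q).card * (2 * D) := by
    rw [← nsmul_eq_mul]
    exact Finset.sum_le_card_nsmul _ _ _ fun y _ => (hcl.iu y).trans hb
  have b2 : (∑ x ∈ lp Q, ((out E x ∩ Y).card : ℝ)) ≤ (lp Q).card * (2 * D) := by
    rw [← nsmul_eq_mul]
    exact Finset.sum_le_card_nsmul _ _ _ fun x _ => (hcl.ou x).trans hb
  have a1' : ((X ∩ clA E (L ^ 2) Q).card : ℝ) * (L : ℝ) ^ 2 ≤
      ∑ y ∈ rp Q, ((inn E y ∩ X).card : ℝ) := by exact_mod_cast a1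
  have a2' : ((Y ∩ clB E (L ^ 2) Q).card : ℝ) * (L : ℝ) ^ 2 ≤
      ∑ x ∈ lp Q, ((out E x ∩ Y).card : ℝ) := by exact_mod_cast a2
  have c : ((lp Q).card : ℝ) + (rp Q).card = Q.card := by exact_mod_cast lp_rp Q
  rw [← c]
  linarith

end Pool.Agent.LAP.H76
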